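import Mathlib

set_option autoImplicit false

/-!
# Conjugate subgroups of prime order (MP_bf82d2_ag, project OG)

If a prime `p` divides the order of `G` exactly once, then for any two elements `a`, `b` of order
`p` there are at least `p` elements `w` with `w ⟨b⟩ w⁻¹ = ⟨a⟩` (theorem of Sylow).
-/

namespace Pool.Agent.H81.OGF

open Pointwise

theorem zpowers_conj {G : Type*} [Group G] (w b : G) :
    Subgroup.zpowers (w * b * w⁻¹) = MulAut.conj w • Subgroup.zpowers b := by
  rw [Subgroup.pointwise_smul_def, MonoidHom.map_zpowers]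
  rfl

theorem exists_conj {G : Type*} [Group G] [Finite G] {p : ℕ} (hp : p.Prime)
    (h1 : (Nat.card G).factorization p = 1) {a b : G} (ha : orderOf a = p) (hb : orderOf b = p) :
    ∃ w : G, Subgroup.zpowers (w * b * w⁻¹) = Subgroup.zpowers a := by
  have : Fact p.Prime := ⟨hp⟩
  let P : Sylow p G := Sylow.ofCard (Subgroup.zpowers a) (by
    rw [Nat.card_zpowers, ha, h1, pow_one])
  let Q : Sylow p G := Sylow.ofCard (Subgroup.zpowers b) (by
    rw [Nat.card_zpowers, hb, h1, pow_one])
  obtain ⟨w, hw⟩ := MulAction.exists_smul_eq G Q P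
  refine ⟨w, ?_⟩
  rw [zpowers_conj]
  exact congrArg (fun R : Sylow p G => (R : Subgroup G)) hw

open Classical in
theorem card_conj_ge {G : Type*} [Group G] [Fintype G] {p : ℕ} (hp : p.Prime)
    (h1 : (Nat.card G).factorization p = 1) {a b : G} (ha : orderOf a = p) (hb : orderOf b = p) :
    p ≤ (Finset.univ.filter fun w : G =>
      Subgroup.zpowers (w * b * w⁻¹) = Subgroup.zpowers a).card := by
  obtain ⟨w, hw⟩ := exists_conj hp h1 ha hb
  have h2 : ((Finset.range p).image fun k => w * b ^ k) ⊆ (Finset.univ.filter fun w : G =>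
      Subgroup.zpowers (w * b * w⁻¹) = Subgroup.zpowers a) := by
    intro x hx
    obtain ⟨k, -, rfl⟩ := Finset.mem_image.1 hx
    rw [Finset.mem_filter]
    refine ⟨Finset.mem_univ _, ?_⟩
    have : w * b ^ k * b * (w * b ^ k)⁻¹ = w * b * w⁻¹ := by
      rw [mul_inv_rev, mul_assoc w (b ^ k) b, ← pow_succ, pow_succ']
      group
    rw [this, hw]
  refine le_trans ?_ (Finset.card_le_card h2)
  rw [Finset.card_image_of_injOn, Finset.card_range]
  intro i hi j hj hij
  have h3 : b ^ i = b ^ j := mul_left_cancel hij
  apply pow_injOn_Iio_orderOf (x := b)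
  · simpa [hb] using hi
  · simpa [hb] using hj
  · exact h3

theorem factorization_21 : (21 : ℕ).factorization 3 = 1 := by
  have h : (21 : ℕ) = 3 * 7 := by norm_num
  rw [h, Nat.factorization_mul (by norm_num) (by norm_num), Finsupp.add_apply,
    Nat.Prime.factorization_self (by norm_num),
    Nat.factorization_eq_zero_of_not_dvd (by norm_num)]

open Classical in
/-- The case of a group of order `21`. -/
theorem card_conj_ge_21 {G : Type*} [Group G] [Fintype G] (h : Nat.card G = 21) {a b : G}
    (ha : orderOf a = 3) (hb : orderOf b = 3) :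
    3 ≤ (Finset.univ.filter fun w : G =>
      Subgroup.zpowers (w * b * w⁻¹) = Subgroup.zpowers a).card :=
  card_conj_ge (by norm_num) (by rw [h, factorization_21]) ha hb

/-- The orders of the elements in a non-abelian group whose order is a product of two primes. -/
theorem orderOf_of_card {G : Type*} [Group G] [Finite G] (hn : ¬ ∀ a b : G, a * b = b * a) (a : G) :
    orderOf a ∣ Nat.card G ∧ orderOf a ≠ Nat.card G := by
  refine ⟨orderOf_dvd_natCard a, fun h => hn ?_⟩
  have : IsCyclic G := isCyclic_of_orderOf_eq_card a h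
  intro x y
  exact (IsCyclic.commGroup (α := G)).mul_comm x y

end Pool.Agent.H81.OGF
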