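import Mathlib

set_option autoImplicit false

/-!
# Groups of small odd order (MP_bf82d2_ag, project OG)

A finite group of odd order less than `49` which is not abelian has order `21`, `27` or `39`.
-/

namespace Pool.Agent.H81.OGF

/-- A group of order `p ^ v`, `v ≤ 2`, is abelian. -/
theorem comm_of_card_le_two {P : Type*} [Group P] {p v : ℕ} (hp : p.Prime) (hc : Nat.card P = p ^ v)
    (hv : v ≤ 2) : ∀ a b : P, a * b = b * a := by
  have : Fact p.Prime := ⟨hp⟩
  interval_cases v
  · intro a b
    have : Subsingleton P := by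
      have h1 : Nat.card P = 1 := by simpa using hc
      exact (Nat.card_eq_one_iff_unique.1 h1).1
    exact Subsingleton.elim _ _
  · have h1 : Nat.card P = p := by simpa using hc
    have : IsCyclic P := isCyclic_of_prime_card h1
    intro a b
    exact (IsCyclic.commGroup (α := P)).mul_comm a b
  · intro a b
    exact (IsPGroup.isMulCommutative_of_card_eq_prime_sq hc).is_comm.comm a b

/-- If for every prime divisor `p` of the order only `1` is a divisor of the order congruent to `1`
modulo `p`, and the order is not divisible by `p ^ 3`, then the group is abelian. -/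
theorem comm_of_sylow {G : Type*} [Group G] [Finite G]
    (h : ∀ p : ℕ, p.Prime → p ∣ Nat.card G →
      (∀ k, k ∣ Nat.card G → k % p = 1 → k = 1) ∧ ¬ p ^ 3 ∣ Nat.card G) :
    ∀ a b : G, a * b = b * a := by
  have hn : ∀ {p : ℕ} [Fact p.Prime] (P : Sylow p G), P.Normal := by
    intro p hp P
    by_cases hd : p ∣ Nat.card G
    · have h1 := (h p hp.1 hd).1 (Nat.card (Sylow p G))
        (P.card_dvd_index.trans (Subgroup.index_dvd_card _)) (by
          have := card_sylow_modEq_one p G
          have h2 : Nat.card (Sylow p G) % p = 1 % p := this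
          rw [h2, Nat.mod_eq_of_lt hp.1.one_lt])
      have : Subsingleton (Sylow p G) := (Nat.card_eq_one_iff_unique.1 h1).1
      exact P.normal_of_subsingleton
    · have h1 : Nat.card P = 1 := by
        rw [P.card_eq_multiplicity, Nat.factorization_eq_zero_of_not_dvd hd, pow_zero]
      have h2 : (P : Subgroup G) = ⊥ := by
        rw [Subgroup.eq_bot_iff_card]; exact h1
      rw [h2]; infer_instance
  have e := Sylow.directProductOfNormal hn
  intro a b
  obtain ⟨x, rfl⟩ := e.surjective a
  obtain ⟨y, rfl⟩ := e.surjective b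
  rw [← map_mul, ← map_mul]
  congr 1
  funext ⟨p, hp⟩
  funext P
  have hp' := Nat.prime_of_mem_primeFactors hp
  have : Fact p.Prime := ⟨hp'⟩
  have hv : (Nat.card G).factorization p ≤ 2 := by
    by_contra hv
    have h3 : 3 ≤ (Nat.card G).factorization p := by omega
    exact (h p hp' (Nat.dvd_of_mem_primeFactors hp)).2
      ((pow_dvd_pow p h3).trans (Nat.ordProj_dvd _ p))
  exact comm_of_card_le_two hp' P.card_eq_multiplicity hv _ _

theorem small_check_list : (List.range 49).all (fun n => (List.range 49).all (fun p =>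
    !(n % 2 == 1 && n != 21 && n != 27 && n != 39 && decide (2 ≤ p) && n % p == 0) ||
    ((List.range 49).all (fun k => !(n % k == 0 && k % p == 1) || k == 1) &&
      n % (p * p * p) != 0))) = true := by
  decide +kernel

theorem small_check (n : ℕ) (hn : n < 49) (h2 : n % 2 = 1) (h21 : n ≠ 21) (h27 : n ≠ 27)
    (h39 : n ≠ 39) (p : ℕ) (hp : p < 49) (hp2 : 2 ≤ p) (hpn : n % p = 0) :
    (∀ k, k < 49 → n % k = 0 → k % p = 1 → k = 1) ∧ n % (p ^ 3) ≠ 0 := by
  have h := List.all_eq_true.1 small_check_list n (List.mem_range.2 hn)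
  have h := List.all_eq_true.1 h p (List.mem_range.2 hp)
  simp only [h2, beq_self_eq_true, hpn, decide_eq_true hp2, Bool.and_true, Bool.true_and,
    bne_iff_ne.2 h21, bne_iff_ne.2 h27, bne_iff_ne.2 h39, Bool.not_true, Bool.false_or,
    Bool.and_eq_true] at h
  refine ⟨fun k hk hk1 hk2 => ?_, ?_⟩
  · have h' := List.all_eq_true.1 h.1 k (List.mem_range.2 hk)
    simpa [hk1, hk2] using h'
  · have h' := h.2
    have : p ^ 3 = p * p * p := by ring
    rw [this]
    simpa using h'

/-- The orders of the non-abelian groups of odd order below `49`. -/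
theorem card_of_small {G : Type*} [Group G] [Finite G] (ho : Odd (Nat.card G))
    (hn : ¬ ∀ a b : G, a * b = b * a) (hc : Nat.card G < 49) :
    Nat.card G = 21 ∨ Nat.card G = 27 ∨ Nat.card G = 39 := by
  by_contra hno
  push Not at hno
  apply hn
  apply comm_of_sylow
  intro p hp hd
  have hpos : 0 < Nat.card G := Nat.card_pos
  have hple : p ≤ Nat.card G := Nat.le_of_dvd hpos hd
  obtain ⟨h1, h2⟩ := small_check _ hc (Nat.odd_iff.1 ho) hno.1 hno.2.1 hno.2.2 p (by omega)
    hp.two_le (Nat.mod_eq_zero_of_dvd hd)
  refine ⟨fun k hk hk1 => h1 k ?_ (Nat.mod_eq_zero_of_dvd hk) hk1, fun hd3 =>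
    h2 (Nat.mod_eq_zero_of_dvd hd3)⟩
  have := Nat.le_of_dvd hpos hk
  omega

theorem card_ge_21 {G : Type*} [Group G] [Finite G] (ho : Odd (Nat.card G))
    (hn : ¬ ∀ a b : G, a * b = b * a) : 21 ≤ Nat.card G := by
  by_contra hlt
  push Not at hlt
  rcases card_of_small ho hn (by omega) with h | h | h <;> omega

end Pool.Agent.H81.OGF
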